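import Pool.Agent.Q99.IE2.Main

/-!
# No constant in the quantitative separation from (I)-envelopes
-/

set_option autoImplicit false

namespace Pool.Agent.Results.MP_1f58a3_an.NoConstant

open Q99.IE2
open scoped ENNReal

/-- For real and for complex scalars there is a Banach space `X` such that for every `c ≥ 1` there are a nonempty
bounded set `A` in the dual space and a functional `η` with `c * d₂ (η) < d₁ (η)`. -/
theorem result (𝕜 : Type) [RCLike 𝕜] :
    ∃ (X : Type) (_ : NormedAddCommGroup X) (_ : NormedSpace 𝕜 X), CompleteSpace X ∧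
      ∀ c : ℝ, 1 ≤ c → ∃ (A : Set (StrongDual 𝕜 X)) (η : StrongDual 𝕜 X), A.Nonempty ∧ Bornology.IsBounded A ∧
        (c : EReal) * d2 A η < ((d1 A η : ℝ≥0∞) : EReal) :=
  ⟨XX 𝕜, inferInstance, inferInstance, inferInstance, fun c hc =>
    ⟨AA 𝕜 (1 / (2 * c)), 0, AA_nonempty 𝕜 _, AA_bounded 𝕜 _, main 𝕜 c hc⟩⟩

end Pool.Agent.Results.MP_1f58a3_an.NoConstant
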